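import Mathlib

set_option autoImplicit false

open Set TopologicalSpace Topology

namespace Pool.Agent.Results.MP_c8df5e_gt.ProductDReflection

universe u v w

section defs

variable {X : Type u} [TopologicalSpace X]

/-- The specialization order: `x ≤ y` iff `x` lies in the closure of `{y}`. -/
def SpecLE (x y : X) : Prop := x ∈ closure ({y} : Set X)

/-- `D` is a directed set for the specialization order (nonempty, and any two of its members have an
upper bound in `D`). -/
def IsDirectedSet (D : Set X) : Prop :=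
  D.Nonempty ∧ ∀ a ∈ D, ∀ b ∈ D, ∃ c ∈ D, SpecLE a c ∧ SpecLE b c

/-- `s` is a supremum of `D` for the specialization order. -/
def IsSup (D : Set X) (s : X) : Prop :=
  (∀ a ∈ D, SpecLE a s) ∧ ∀ t : X, (∀ a ∈ D, SpecLE a t) → SpecLE s t

end defs

/-- A `d`-space: a `T₀` space in which every directed set (for the specialization order) has a
supremum, and every open set that contains this supremum meets the directed set. -/
def DSpace (X : Type u) [TopologicalSpace X] : Prop :=
  T0Space X ∧ ∀ D : Set X, IsDirectedSet D →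
    ∃ s : X, IsSup D s ∧ ∀ U : Set X, IsOpen U → s ∈ U → (D ∩ U).Nonempty

/-- `(Y, μ)` is a `d`-reflection of `X`: `Y` is a `d`-space, `μ : X → Y` is continuous, and every
continuous map `f` from `X` to a `d`-space `Z` factors through `μ` by a unique continuous map. -/
def IsDReflection {X Y : Type u} [TopologicalSpace X] [TopologicalSpace Y] (μ : X → Y) : Prop :=
  DSpace Y ∧ Continuous μ ∧
    ∀ (Z : Type u) [TopologicalSpace Z], DSpace Z → ∀ f : X → Z, Continuous f →
      ∃! g : Y → Z, Continuous g ∧ g ∘ μ = f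

/-! ### Directed limits -/

section basic

variable {X : Type u} [TopologicalSpace X]

theorem specLE_iff {x y : X} : SpecLE x y ↔ y ⤳ x := specializes_iff_mem_closure.symm

theorem SpecLE.mem {x y : X} (h : SpecLE x y) {U : Set X} (hU : IsOpen U) (hx : x ∈ U) : y ∈ U :=
  (specLE_iff.1 h).mem_open hU hx

theorem specLE_of {x y : X} (h : ∀ U : Set X, IsOpen U → x ∈ U → y ∈ U) : SpecLE x y :=
  specLE_iff.2 (specializes_iff_forall_open.2 h)

theorem SpecLE.refl (x : X) : SpecLE x x := subset_closure rfl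

theorem SpecLE.trans {x y z : X} (h : SpecLE x y) (h' : SpecLE y z) : SpecLE x z :=
  specLE_of fun _ hU hx => h'.mem hU (h.mem hU hx)

/-- the open sets around `s` are the open sets that meet `D` -/
def Lim (D : Set X) (s : X) : Prop := ∀ U : Set X, IsOpen U → (s ∈ U ↔ (D ∩ U).Nonempty)

theorem lim_iff {D : Set X} {s : X} :
    Lim D s ↔ IsSup D s ∧ ∀ U : Set X, IsOpen U → s ∈ U → (D ∩ U).Nonempty := by
  constructor
  · intro h
    refine ⟨⟨fun a ha => specLE_of fun U hU haU => (h U hU).2 ⟨a, ha, haU⟩, fun t ht => ?_⟩,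
      fun U hU hs => (h U hU).1 hs⟩
    refine specLE_of fun U hU hs => ?_
    obtain ⟨d, hd, hdU⟩ := (h U hU).1 hs
    exact (ht d hd).mem hU hdU
  · rintro ⟨⟨h1, -⟩, h2⟩ U hU
    refine ⟨h2 U hU, ?_⟩
    rintro ⟨d, hd, hdU⟩
    exact (h1 d hd).mem hU hdU

theorem dspace_iff : DSpace X ↔ T0Space X ∧ ∀ D : Set X, IsDirectedSet D → ∃ s : X, Lim D s := by
  unfold DSpace
  simp only [lim_iff]

/-- closed under directed limits -/
def DClosed (S : Set X) : Prop := ∀ D ⊆ S, IsDirectedSet D → ∀ s, Lim D s → s ∈ S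

variable {Y : Type v} [TopologicalSpace Y]

theorem IsDirectedSet.image {D : Set X} (hD : IsDirectedSet D) {f : X → Y} (hf : Continuous f) :
    IsDirectedSet (f '' D) := by
  refine ⟨hD.1.image f, ?_⟩
  rintro _ ⟨a, ha, rfl⟩ _ ⟨b, hb, rfl⟩
  obtain ⟨c, hc, hac, hbc⟩ := hD.2 a ha b hb
  exact ⟨f c, mem_image_of_mem f hc, specLE_iff.2 ((specLE_iff.1 hac).map hf),
    specLE_iff.2 ((specLE_iff.1 hbc).map hf)⟩

theorem Lim.image {D : Set X} {s : X} (h : Lim D s) {f : X → Y} (hf : Continuous f) :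
    Lim (f '' D) (f s) := by
  intro U hU
  have := h (f ⁻¹' U) (hU.preimage hf)
  rw [mem_preimage] at this
  rw [this]
  constructor
  · rintro ⟨d, hd, hdU⟩
    exact ⟨f d, mem_image_of_mem f hd, hdU⟩
  · rintro ⟨_, ⟨d, hd, rfl⟩, hdU⟩
    exact ⟨d, hd, hdU⟩

theorem DClosed.preimage {S : Set Y} (hS : DClosed S) {f : X → Y} (hf : Continuous f) :
    DClosed (f ⁻¹' S) := fun D hDS hD s hs =>
  hS (f '' D) (image_subset_iff.2 hDS) (hD.image hf) (f s) (hs.image hf)

theorem dclosed_eq [T0Space Y] {f g : X → Y} (hf : Continuous f) (hg : Continuous g) :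
    DClosed {x | f x = g x} := by
  intro D hDS _ s hs
  refine (inseparable_iff_forall_isOpen.2 fun U hU => ?_).eq
  have h1 := hs (f ⁻¹' U) (hU.preimage hf)
  have h2 := hs (g ⁻¹' U) (hU.preimage hg)
  have h3 : D ∩ f ⁻¹' U = D ∩ g ⁻¹' U := by
    ext d
    constructor
    · rintro ⟨hd, hdU⟩
      refine ⟨hd, ?_⟩
      show g d ∈ U
      rw [← (hDS hd : f d = g d)]
      exact hdU
    · rintro ⟨hd, hdU⟩
      refine ⟨hd, ?_⟩
      show f d ∈ U
      rw [(hDS hd : f d = g d)]
      exact hdU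
  rw [h3] at h1
  exact h1.trans h2.symm

/-- A subset of a `d`-space that is closed under directed limits is a `d`-space. -/
theorem DClosed.dspace (hX : DSpace X) {S : Set X} (hS : DClosed S) : DSpace S := by
  rw [dspace_iff] at hX ⊢
  have : T0Space X := hX.1
  refine ⟨inferInstance, fun D hD => ?_⟩
  obtain ⟨s, hs⟩ := hX.2 _ (hD.image continuous_subtype_val)
  have hsS : s ∈ S := hS _ (by rintro _ ⟨d, -, rfl⟩; exact d.2) (hD.image continuous_subtype_val)
    s hs
  refine ⟨⟨s, hsS⟩, fun U hU => ?_⟩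
  obtain ⟨V, hV, rfl⟩ := isOpen_induced_iff.1 hU
  have := hs V hV
  rw [mem_preimage, this]
  constructor
  · rintro ⟨_, ⟨d, hd, rfl⟩, hdV⟩
    exact ⟨d, hd, hdV⟩
  · rintro ⟨d, hd, hdV⟩
    exact ⟨d.1, mem_image_of_mem _ hd, hdV⟩

/-- `μ` has dense range in the sense of directed limits -/
def DDense (μ : X → Y) : Prop := ∀ S : Set Y, DClosed S → range μ ⊆ S → ∀ y, y ∈ S

end basic

/-! ### The Sierpinski space -/

theorem mem_of_false_mem {U : Set Prop} (hU : IsOpen U) (h : False ∈ U) (p : Prop) : p ∈ U := by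
  have h1 : U ∈ 𝓝 False := hU.mem_nhds h
  rw [nhds_false, Filter.mem_top] at h1
  rw [h1]
  trivial

theorem dspace_prop : DSpace Prop := by
  rw [dspace_iff]
  refine ⟨inferInstance, fun D hD => ?_⟩
  by_cases h : True ∈ D
  · refine ⟨True, fun U hU => ⟨fun hU' => ⟨True, h, hU'⟩, ?_⟩⟩
    rintro ⟨p, -, hp⟩
    by_cases hp' : p
    · rw [← eq_true hp']
      exact hp
    · rw [eq_false hp'] at hp
      exact mem_of_false_mem hU hp _
  · refine ⟨False, fun U hU => ?_⟩
    have hf : ∀ p ∈ D, p = False := by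
      intro p hp
      by_cases hp' : p
      · rw [eq_true hp'] at hp
        exact absurd hp h
      · exact eq_false hp'
    constructor
    · intro hU'
      obtain ⟨d, hd⟩ := hD.1
      exact ⟨d, hd, by rw [hf d hd]; exact hU'⟩
    · rintro ⟨p, hp, hpU⟩
      rw [hf p hp] at hpU
      exact hpU

theorem dspace_of_homeo {X : Type u} {Y : Type v} [TopologicalSpace X] [TopologicalSpace Y]
    (h : X ≃ₜ Y) (hX : DSpace X) : DSpace Y := by
  rw [dspace_iff] at hX ⊢
  have : T0Space X := hX.1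
  refine ⟨h.symm.isEmbedding.t0Space, fun D hD => ?_⟩
  obtain ⟨s, hs⟩ := hX.2 _ (hD.image h.symm.continuous)
  refine ⟨h s, ?_⟩
  have h1 := hs.image h.continuous
  rwa [image_image, show (fun x => h (h.symm x)) = id from funext fun x => h.apply_symm_apply x,
    image_id] at h1

theorem dspace_ulift : DSpace (ULift.{u} Prop) := dspace_of_homeo Homeomorph.ulift.symm dspace_prop

/-! ### Recognizing `d`-reflections -/

theorem isDReflection_of {X Y : Type u} [TopologicalSpace X] [TopologicalSpace Y] {μ : X → Y}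
    (hY : DSpace Y) (hμ : IsInducing μ) (hd : DDense μ) : IsDReflection μ := by
  refine ⟨hY, hμ.continuous, fun Z _ hZ f hf => ?_⟩
  have hext : ∀ V : Opens Z, ∃ W : Set Y, IsOpen W ∧ μ ⁻¹' W = f ⁻¹' V := fun V =>
    hμ.isOpen_iff.1 (V.2.preimage hf)
  choose E hEo hE using hext
  have hZ' := dspace_iff.1 hZ
  have : T0Space Z := hZ'.1
  have hS : ∀ y, y ∈ {y : Y | ∃ z : Z, ∀ V : Opens Z, z ∈ V ↔ y ∈ E V} := by
    refine hd _ ?_ ?_
    · intro D hDS hD s hs
      let D' : Set Z := {z | ∃ d ∈ D, ∀ V : Opens Z, z ∈ V ↔ d ∈ E V}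
      have hD' : IsDirectedSet D' := by
        refine ⟨?_, ?_⟩
        · obtain ⟨d, hd⟩ := hD.1
          obtain ⟨z, hz⟩ := hDS hd
          exact ⟨z, d, hd, hz⟩
        · rintro z₁ ⟨d₁, hd₁, hz₁⟩ z₂ ⟨d₂, hd₂, hz₂⟩
          obtain ⟨d₃, hd₃, h13, h23⟩ := hD.2 d₁ hd₁ d₂ hd₂
          obtain ⟨z₃, hz₃⟩ := hDS hd₃
          refine ⟨z₃, ⟨d₃, hd₃, hz₃⟩, specLE_of fun U hU h => ?_, specLE_of fun U hU h => ?_⟩
          · exact (hz₃ ⟨U, hU⟩).2 (h13.mem (hEo _) ((hz₁ ⟨U, hU⟩).1 h))
          · exact (hz₃ ⟨U, hU⟩).2 (h23.mem (hEo _) ((hz₂ ⟨U, hU⟩).1 h))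
      obtain ⟨z, hz⟩ := hZ'.2 D' hD'
      refine ⟨z, fun V => ?_⟩
      have h1 := hz V V.2
      have h2 := hs (E V) (hEo V)
      rw [h2]
      refine h1.trans ⟨?_, ?_⟩
      · rintro ⟨z', ⟨d, hd, hz'⟩, hz'V⟩
        exact ⟨d, hd, (hz' V).1 hz'V⟩
      · rintro ⟨d, hd, hdE⟩
        obtain ⟨z', hz'⟩ := hDS hd
        exact ⟨z', ⟨d, hd, hz'⟩, (hz' V).2 hdE⟩
    · rintro _ ⟨x, rfl⟩
      refine ⟨f x, fun V => ?_⟩
      have : x ∈ μ ⁻¹' E V ↔ x ∈ f ⁻¹' (V : Set Z) := by rw [hE V]
      exact this.symm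
  choose g hg using hS
  have hgc : Continuous g := by
    refine continuous_def.2 fun V hV => ?_
    have : g ⁻¹' V = E ⟨V, hV⟩ := by
      ext y
      exact hg y ⟨V, hV⟩
    rw [this]
    exact hEo _
  have hgf : g ∘ μ = f := by
    funext x
    refine (inseparable_iff_forall_isOpen.2 fun V hV => ?_).eq
    have h1 := hg (μ x) ⟨V, hV⟩
    have h2 : x ∈ μ ⁻¹' E ⟨V, hV⟩ ↔ x ∈ f ⁻¹' V := by rw [hE ⟨V, hV⟩]; rfl
    exact h1.trans h2
  refine ⟨g, ⟨hgc, hgf⟩, ?_⟩
  rintro g' ⟨hg'c, hg'f⟩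
  funext y
  refine hd {y | g' y = g y} (dclosed_eq hg'c hgc) ?_ y
  rintro _ ⟨x, rfl⟩
  show (g' ∘ μ) x = (g ∘ μ) x
  rw [hg'f, hgf]

theorem IsDReflection.inducing {X Y : Type u} [TopologicalSpace X] [TopologicalSpace Y] {μ : X → Y}
    (h : IsDReflection μ) : IsInducing μ := by
  refine ⟨le_antisymm (continuous_iff_le_induced.1 h.2.1) ?_⟩
  intro U hU
  have hc : Continuous (fun x : X => ULift.up.{u} (x ∈ U)) :=
    continuous_uliftUp.comp (isOpen_iff_continuous_mem.1 hU)
  obtain ⟨g, ⟨hg, hgf⟩, -⟩ := h.2.2 (ULift.{u} Prop) dspace_ulift _ hc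
  refine isOpen_induced_iff.2 ⟨{y | (g y).down}, ?_, ?_⟩
  · exact isOpen_iff_continuous_mem.2 (continuous_uliftDown.comp hg)
  · ext x
    have := congrArg ULift.down (congrFun hgf x)
    simp only [Function.comp_apply] at this
    rw [mem_preimage, mem_ofPred_eq, this]

theorem IsDReflection.ddense {X Y : Type u} [TopologicalSpace X] [TopologicalSpace Y] {μ : X → Y}
    (h : IsDReflection μ) : DDense μ := by
  intro S hS hμS y
  have hc : Continuous (fun x : X => (⟨μ x, hμS (mem_range_self x)⟩ : S)) := h.2.1.subtype_mk _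
  obtain ⟨g, ⟨hg, hgf⟩, -⟩ := h.2.2 S (hS.dspace h.1) _ hc
  obtain ⟨k, -, hk⟩ := h.2.2 Y h.1 μ h.2.1
  have h1 : (fun y => (g y).1) = k := hk _ ⟨continuous_subtype_val.comp hg, by
    funext x
    have := congrArg Subtype.val (congrFun hgf x)
    exact this⟩
  have h2 : id = k := hk _ ⟨continuous_id, rfl⟩
  have h3 : (g y).1 = y := by
    have := congrFun (h1.trans h2.symm) y
    exact this
  rw [← h3]
  exact (g y).2

/-! ### Products -/

theorem specLE_pi {I : Type v} {Y : I → Type u} [∀ i, TopologicalSpace (Y i)] {x y : ∀ i, Y i} :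
    SpecLE x y ↔ ∀ i, SpecLE (x i) (y i) := by
  simp only [specLE_iff, specializes_pi]

theorem dspace_pi {I : Type v} {Y : I → Type u} [∀ i, TopologicalSpace (Y i)]
    (hY : ∀ i, DSpace (Y i)) : DSpace (∀ i, Y i) := by
  simp only [dspace_iff] at hY ⊢
  have : ∀ i, T0Space (Y i) := fun i => (hY i).1
  refine ⟨inferInstance, fun D hD => ?_⟩
  have h1 : ∀ i, ∃ s : Y i, Lim ((fun y : ∀ i, Y i => y i) '' D) s := fun i =>
    (hY i).2 _ (hD.image (continuous_apply i))
  choose s hs using h1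
  refine ⟨s, fun U hU => ⟨fun hsU => ?_, ?_⟩⟩
  · obtain ⟨F, V, hV, hVU⟩ := isOpen_pi_iff.1 hU s hsU
    have key : ∀ G : Finset I, G ⊆ F → ∃ d ∈ D, ∀ i ∈ G, d i ∈ V i := by
      classical
      intro G
      induction G using Finset.induction_on with
      | empty =>
        intro _
        obtain ⟨d, hd⟩ := hD.1
        exact ⟨d, hd, fun i hi => absurd hi (Finset.notMem_empty i)⟩
      | insert a G ha ih =>
        intro hG
        obtain ⟨d, hd, hdG⟩ := ih fun i hi => hG (Finset.mem_insert_of_mem hi)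
        have haF : a ∈ F := hG (Finset.mem_insert_self a G)
        obtain ⟨_, ⟨e, he, rfl⟩, heV⟩ := (hs a (V a) (hV a haF).1).1 (hV a haF).2
        obtain ⟨c, hc, hdc, hec⟩ := hD.2 d hd e he
        refine ⟨c, hc, fun i hi => ?_⟩
        rcases Finset.mem_insert.1 hi with rfl | hi
        · exact (specLE_pi.1 hec i).mem (hV i haF).1 heV
        · exact (specLE_pi.1 hdc i).mem (hV i (hG (Finset.mem_insert_of_mem hi))).1 (hdG i hi)
    obtain ⟨d, hd, hdF⟩ := key F le_rfl
    exact ⟨d, hd, hVU fun i hi => hdF i hi⟩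
  · rintro ⟨d, hd, hdU⟩
    refine SpecLE.mem (specLE_pi.2 fun i => ?_) hU hdU
    exact (lim_iff.1 (hs i)).1.1 (d i) ⟨d, hd, rfl⟩

theorem DDense.exists_le {X Y : Type u} [TopologicalSpace X] [TopologicalSpace Y] {μ : X → Y}
    (h : DDense μ) (y : Y) : ∃ x, SpecLE (μ x) y := by
  refine h {y | ∃ x, SpecLE (μ x) y} ?_ ?_ y
  · intro D hDS hD s hs
    obtain ⟨d, hd⟩ := hD.1
    obtain ⟨x, hx⟩ := hDS hd
    exact ⟨x, hx.trans ((lim_iff.1 hs).1.1 d hd)⟩
  · rintro _ ⟨x, rfl⟩
    exact ⟨x, SpecLE.refl _⟩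

theorem ddense_pi {I : Type v} {X Y : I → Type u} [∀ i, TopologicalSpace (X i)]
    [∀ i, TopologicalSpace (Y i)] {μ : ∀ i, X i → Y i} (h : ∀ i, DDense (μ i)) :
    DDense (fun (x : ∀ i, X i) (i : I) => μ i (x i)) := by
  classical
  intro S hS hμS
  -- finitely many coordinates
  have step : ∀ F : Finset I, ∀ y : ∀ i, Y i, (∀ i, i ∉ F → ∃ x, μ i x = y i) → y ∈ S := by
    intro F
    induction F using Finset.induction_on with
    | empty =>
      intro y hy
      choose x hx using fun i => hy i (Finset.notMem_empty i)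
      exact hμS ⟨x, funext hx⟩
    | insert a F ha ih =>
      intro y hy
      have hcont : Continuous (fun t : Y a => Function.update y a t) :=
        continuous_const.update a continuous_id
      have h1 := h a _ (hS.preimage hcont) (by
        rintro _ ⟨x, rfl⟩
        refine ih _ fun i hi => ?_
        by_cases hia : i = a
        · subst hia
          exact ⟨x, by simp⟩
        · show ∃ x', μ i x' = Function.update y a (μ a x) i
          rw [Function.update_of_ne hia]
          exact hy i fun hc => (Finset.mem_insert.1 hc).elim hia hi) (y a)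
      have h2 : Function.update y a (y a) ∈ S := h1
      rwa [Function.update_eq_self] at h2
  -- all coordinates
  intro y
  choose x hx using fun i => (h i).exists_le (y i)
  let z : Finset I → ∀ i, Y i := fun F i => if i ∈ F then y i else μ i (x i)
  have hzS : ∀ F, z F ∈ S := fun F => step F (z F) fun i hi => ⟨x i, by simp [z, hi]⟩
  have hzy : ∀ F, SpecLE (z F) y := fun F => specLE_pi.2 fun i => by
    by_cases hi : i ∈ F
    · simp only [z, hi, if_true]
      exact SpecLE.refl _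
    · simp only [z, hi, if_false]
      exact hx i
  have hmono : ∀ F G : Finset I, F ⊆ G → SpecLE (z F) (z G) := fun F G hFG =>
    specLE_pi.2 fun i => by
      by_cases hi : i ∈ F
      · simp only [z, hi, hFG hi, if_true]
        exact SpecLE.refl _
      · by_cases hi' : i ∈ G
        · simp only [z, hi, hi', if_true, if_false]
          exact hx i
        · simp only [z, hi, hi', if_false]
          exact SpecLE.refl _
  refine hS (range z) (by rintro _ ⟨F, rfl⟩; exact hzS F) ⟨range_nonempty z, ?_⟩ y ?_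
  · rintro _ ⟨F, rfl⟩ _ ⟨G, rfl⟩
    exact ⟨z (F ∪ G), mem_range_self _, hmono _ _ Finset.subset_union_left,
      hmono _ _ Finset.subset_union_right⟩
  · intro U hU
    constructor
    · intro hy
      obtain ⟨F, V, hV, hVU⟩ := isOpen_pi_iff.1 hU y hy
      refine ⟨z F, mem_range_self F, hVU fun i hi => ?_⟩
      have hi' : i ∈ F := hi
      simp only [z, hi', if_true]
      exact (hV i hi').2
    · rintro ⟨_, ⟨F, rfl⟩, hF⟩
      exact (hzy F).mem hU hF

/-- The product of `d`-reflections is a `d`-reflection. -/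
theorem isDReflection_pi (I : Type u) (X : I → Type u) [∀ i, TopologicalSpace (X i)]
    (Y : I → Type u) [∀ i, TopologicalSpace (Y i)] (μ : ∀ i, X i → Y i)
    (h : ∀ i, IsDReflection (μ i)) :
    IsDReflection (fun (x : ∀ i, X i) (i : I) => μ i (x i)) :=
  isDReflection_of (dspace_pi fun i => (h i).1)
    (Topology.IsInducing.piMap fun i => (h i).inducing) (ddense_pi fun i => (h i).ddense)

/-! ### Uniqueness and existence of the `d`-reflection -/

theorem unique_reflection {X Y Z : Type u} [TopologicalSpace X] [TopologicalSpace Y]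
    [TopologicalSpace Z] {μ : X → Y} {ν : X → Z} (hμ : IsDReflection μ) (hν : IsDReflection ν) :
    ∃ h : Z ≃ₜ Y, ∀ x, h (ν x) = μ x := by
  obtain ⟨f, ⟨hf, hfμ⟩, -⟩ := hν.2.2 Y hμ.1 μ hμ.2.1
  obtain ⟨g, ⟨hg, hgν⟩, -⟩ := hμ.2.2 Z hν.1 ν hν.2.1
  obtain ⟨k, -, hk⟩ := hμ.2.2 Y hμ.1 μ hμ.2.1
  obtain ⟨l, -, hl⟩ := hν.2.2 Z hν.1 ν hν.2.1
  have h1 : f ∘ g = id := (hk _ ⟨hf.comp hg, by
    rw [Function.comp_assoc, hgν, hfμ]⟩).trans (hk _ ⟨continuous_id, rfl⟩).symm
  have h2 : g ∘ f = id := (hl _ ⟨hg.comp hf, by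
    rw [Function.comp_assoc, hfμ, hgν]⟩).trans (hl _ ⟨continuous_id, rfl⟩).symm
  refine ⟨{ toFun := f, invFun := g, left_inv := fun z => congrFun h2 z,
            right_inv := fun y => congrFun h1 y, continuous_toFun := hf,
            continuous_invFun := hg }, fun x => ?_⟩
  exact congrFun hfμ x

/-- Every `T₀` space has a `d`-reflection. -/
theorem exists_reflection (X : Type u) [TopologicalSpace X] :
    ∃ (Y : Type u) (_ : TopologicalSpace Y) (μ : X → Y), IsDReflection μ := by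
  let e : X → (Opens X → Prop) := fun x U => x ∈ U
  have he : IsInducing e := TopologicalSpace.productOfMemOpens_isInducing X
  let S : Set (Opens X → Prop) := ⋂₀ {T | DClosed T ∧ range e ⊆ T}
  have hS : DClosed S := by
    intro D hDS hD s hs T hT
    exact hT.1 D (fun d hd => hDS hd T hT) hD s hs
  have heS : ∀ x, e x ∈ S := fun x T hT => hT.2 (mem_range_self x)
  have hP : DSpace (Opens X → Prop) := dspace_pi fun _ => dspace_prop
  refine ⟨S, inferInstance, fun x => ⟨e x, heS x⟩, isDReflection_of (hS.dspace hP) ?_ ?_⟩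
  · exact IsInducing.of_comp (he.continuous.subtype_mk _) continuous_subtype_val he
  · intro T hT hrT y
    have hT' : DClosed (Subtype.val '' T) := by
      intro D hDT hD s hs
      have hsS : s ∈ S := hS D (fun d hd => by
        obtain ⟨t, -, rfl⟩ := hDT hd
        exact t.2) hD s hs
      have hD' : Subtype.val '' (Subtype.val ⁻¹' D : Set S) = D := by
        rw [Subtype.image_preimage_coe]
        refine inter_eq_right.2 fun d hd => ?_
        obtain ⟨t, -, rfl⟩ := hDT hd
        exact t.2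
      have hmem : ∀ d (hd : d ∈ D), ∃ hdS : d ∈ S, (⟨d, hdS⟩ : S) ∈ T := by
        intro d hd
        obtain ⟨t, ht, rfl⟩ := hDT hd
        exact ⟨t.2, ht⟩
      refine ⟨⟨s, hsS⟩, hT (Subtype.val ⁻¹' D) ?_ ?_ _ ?_, rfl⟩
      · rintro ⟨d, hdS⟩ hd
        exact (hmem d hd).2
      · refine ⟨?_, ?_⟩
        · obtain ⟨d, hd⟩ := hD.1
          exact ⟨⟨d, (hmem d hd).1⟩, hd⟩
        · rintro ⟨a, haS⟩ ha ⟨b, hbS⟩ hb
          obtain ⟨c, hc, hac, hbc⟩ := hD.2 a ha b hb
          refine ⟨⟨c, (hmem c hc).1⟩, hc, ?_, ?_⟩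
          · exact specLE_iff.2 ((subtype_specializes_iff _ _).2 (specLE_iff.1 hac))
          · exact specLE_iff.2 ((subtype_specializes_iff _ _).2 (specLE_iff.1 hbc))
      · intro U hU
        obtain ⟨V, hV, rfl⟩ := isOpen_induced_iff.1 hU
        have := hs V hV
        rw [mem_preimage, this]
        constructor
        · rintro ⟨d, hd, hdV⟩
          exact ⟨⟨d, (hmem d hd).1⟩, hd, hdV⟩
        · rintro ⟨d, hd, hdV⟩
          exact ⟨d.1, hd, hdV⟩
    obtain ⟨t, ht, hty⟩ := y.2 (Subtype.val '' T) ⟨hT', by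
      rintro _ ⟨x, rfl⟩
      exact ⟨⟨e x, heS x⟩, hrT (mem_range_self x), rfl⟩⟩
    rwa [← Subtype.ext hty]

/-- **The `d`-reflection preserves arbitrary products of `T₀` spaces.** Let `(X i)` be any family of
`T₀` spaces. Each `X i` has a `d`-reflection. If `μ i : X i → Y i` is a `d`-reflection of `X i` for
every `i`, then the product map `∏ μ i : ∏ X i → ∏ Y i` is a `d`-reflection of the product, and for
every `d`-reflection `ν : ∏ X i → Z` of the product there is a homeomorphism `h : Z ≃ₜ ∏ Y i` with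
`h ∘ ν = ∏ μ i`. -/
theorem result (I : Type u) (X : I → Type u) [∀ i, TopologicalSpace (X i)] [∀ i, T0Space (X i)] :
    (∀ i, ∃ (Y : Type u) (_ : TopologicalSpace Y) (μ : X i → Y), IsDReflection μ) ∧
    ∀ (Y : I → Type u) [∀ i, TopologicalSpace (Y i)] (μ : ∀ i, X i → Y i),
      (∀ i, IsDReflection (μ i)) →
      IsDReflection (fun (x : ∀ i, X i) (i : I) => μ i (x i)) ∧
      ∀ (Z : Type u) [TopologicalSpace Z] (ν : (∀ i, X i) → Z), IsDReflection ν →
        ∃ h : Z ≃ₜ (∀ i, Y i), ∀ x : ∀ i, X i, h (ν x) = fun i => μ i (x i) := by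
  refine ⟨fun i => exists_reflection (X i), fun Y _ μ hμ => ?_⟩
  have h := isDReflection_pi I X Y μ hμ
  exact ⟨h, fun Z _ ν hν => unique_reflection h hν⟩

end Pool.Agent.Results.MP_c8df5e_gt.ProductDReflection
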